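import Mathlib

/-!
# Fourier analysis on a finite commutative group with Galois action on the values
-/

set_option autoImplicit false

namespace Pool.Agent.Q233.KT

open Finset IntermediateField Polynomial

variable {G : Type} [CommGroup G] [Fintype G]

noncomputable instance dualFintype : Fintype (G →* ℂˣ) := Fintype.ofFinite _

lemma card_dual : Fintype.card (G →* ℂˣ) = Fintype.card G := by
  rw [← Nat.card_eq_fintype_card, ← Nat.card_eq_fintype_card]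
  exact CommGroup.card_monoidHom_of_hasEnoughRootsOfUnity G ℂ

lemma sum_dual [DecidableEq G] (g : G) :
    ∑ ψ : G →* ℂˣ, ((ψ g : ℂˣ) : ℂ) = if g = 1 then (Fintype.card G : ℂ) else 0 := by
  split_ifs with h
  · subst h
    simp [card_dual]
  · obtain ⟨φ, hφ⟩ := CommGroup.exists_apply_ne_one_of_hasEnoughRootsOfUnity G ℂ h
    have h1 : ((φ g : ℂˣ) : ℂ) * ∑ ψ : G →* ℂˣ, ((ψ g : ℂˣ) : ℂ) = ∑ ψ : G →* ℂˣ, ((ψ g : ℂˣ) : ℂ) := by
      rw [Finset.mul_sum]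
      exact Fintype.sum_equiv (Equiv.mulLeft φ) _ _ (fun ψ => by simp)
    have h2 : (((φ g : ℂˣ) : ℂ) - 1) * ∑ ψ : G →* ℂˣ, ((ψ g : ℂˣ) : ℂ) = 0 := by
      rw [sub_mul, h1, one_mul, sub_self]
    rcases mul_eq_zero.1 h2 with h3 | h3
    · exact absurd (Units.ext (by simpa [sub_eq_zero] using h3)) hφ
    · exact h3

lemma sum_group (ψ : G →* ℂˣ) [Decidable (ψ = 1)] :
    ∑ g : G, ((ψ g : ℂˣ) : ℂ) = if ψ = 1 then (Fintype.card G : ℂ) else 0 := by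
  split_ifs with h
  · subst h
    simp
  · obtain ⟨x, hx⟩ : ∃ x, ψ x ≠ 1 := by
      by_contra hc
      push Not at hc
      exact h (MonoidHom.ext hc)
    have h1 : ((ψ x : ℂˣ) : ℂ) * ∑ g : G, ((ψ g : ℂˣ) : ℂ) = ∑ g : G, ((ψ g : ℂˣ) : ℂ) := by
      rw [Finset.mul_sum]
      exact Fintype.sum_equiv (Equiv.mulLeft x) _ _ (fun ψ => by simp)
    have h2 : (((ψ x : ℂˣ) : ℂ) - 1) * ∑ g : G, ((ψ g : ℂˣ) : ℂ) = 0 := by
      rw [sub_mul, h1, one_mul, sub_self]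
    rcases mul_eq_zero.1 h2 with h3 | h3
    · exact absurd (Units.ext (by simpa [sub_eq_zero] using h3)) hx
    · exact h3

/-- the Fourier coefficient `(1/|G|) ∑_ψ ψ(σ)^{-1} Λ(ψ)` -/
noncomputable def coeff (Λ : (G →* ℂˣ) → ℂ) (σ : G) : ℂ :=
  (1 / (Fintype.card G : ℂ)) * ∑ ψ : G →* ℂˣ, ((ψ σ : ℂˣ) : ℂ)⁻¹ * Λ ψ

lemma card_ne : (Fintype.card G : ℂ) ≠ 0 := by
  exact_mod_cast Fintype.card_ne_zero

lemma inversion (Λ : (G →* ℂˣ) → ℂ) (ψ : G →* ℂˣ) :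
    Λ ψ = ∑ σ : G, coeff Λ σ * ((ψ σ : ℂˣ) : ℂ) := by
  classical
  unfold coeff
  have h1 : ∀ σ : G, (1 / (Fintype.card G : ℂ)) * (∑ φ : G →* ℂˣ, ((φ σ : ℂˣ) : ℂ)⁻¹ * Λ φ) *
      ((ψ σ : ℂˣ) : ℂ) = ∑ φ : G →* ℂˣ, (1 / (Fintype.card G : ℂ)) * Λ φ *
        (((φ⁻¹ * ψ) σ : ℂˣ) : ℂ) := by
    intro σ
    rw [Finset.mul_sum, Finset.sum_mul]
    refine Finset.sum_congr rfl fun φ _ => ?_
    simp
    ring
  simp only [h1]
  rw [Finset.sum_comm]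
  simp only [← Finset.mul_sum]
  have h2 : ∀ φ : G →* ℂˣ, ∑ σ : G, (((φ⁻¹ * ψ) σ : ℂˣ) : ℂ) =
      if φ = ψ then (Fintype.card G : ℂ) else 0 := by
    intro φ
    rw [sum_group]
    by_cases h : φ = ψ
    · subst h
      rw [if_pos (inv_mul_cancel (G := G →* ℂˣ) φ), if_pos rfl]
    · rw [if_neg, if_neg h]
      intro hc
      exact h (inv_mul_eq_one.1 hc)
  simp only [h2]
  have := card_ne (G := G)
  simp
  field_simp

lemma coeff_of_sum (Λ : (G →* ℂˣ) → ℂ) (c : G → ℂ) (h : ∀ ψ : G →* ℂˣ, Λ ψ = ∑ σ, c σ * ((ψ σ : ℂˣ) : ℂ))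
    (σ : G) : coeff Λ σ = c σ := by
  classical
  unfold coeff
  have h1 : ∀ ψ : G →* ℂˣ, ((ψ σ : ℂˣ) : ℂ)⁻¹ * Λ ψ = ∑ τ, c τ * ((ψ (σ⁻¹ * τ) : ℂˣ) : ℂ) := by
    intro ψ
    rw [h ψ, Finset.mul_sum]
    refine Finset.sum_congr rfl fun τ _ => ?_
    simp
    ring
  simp only [h1]
  rw [Finset.sum_comm]
  simp only [← Finset.mul_sum, sum_dual]
  have h2 : ∀ τ : G, (if σ⁻¹ * τ = 1 then (Fintype.card G : ℂ) else 0) =
      if σ = τ then (Fintype.card G : ℂ) else 0 := by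
    intro τ
    by_cases h : σ = τ
    · simp [h]
    · rw [if_neg, if_neg h]
      intro hc
      exact h (inv_mul_eq_one.1 hc)
  simp only [h2]
  have := card_ne (G := G)
  simp
  field_simp

/-- the field `ℚ(ψ)` of the values of `ψ` -/
noncomputable def valueField (ψ : G →* ℂˣ) : IntermediateField ℚ ℂ :=
  adjoin ℚ (Set.range fun x : G => ((ψ x : ℂˣ) : ℂ))

lemma mem_valueField (ψ : G →* ℂˣ) (x : G) : ((ψ x : ℂˣ) : ℂ) ∈ valueField ψ :=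
  subset_adjoin _ _ ⟨x, rfl⟩

/-- (i) and (ii): `Λ ψ` lies in `ℚ(ψ)` and `g (Λ ψ) = Λ (g ∘ ψ)` for all `g ∈ Gal(ℚ(ψ)/ℚ)` -/
def Equivariant (Λ : (G →* ℂˣ) → ℂ) (ψ : G →* ℂˣ) : Prop :=
  ∃ h : Λ ψ ∈ valueField ψ, ∀ g : valueField ψ ≃ₐ[ℚ] valueField ψ, ∀ ψ' : G →* ℂˣ,
    (∀ x, ((ψ' x : ℂˣ) : ℂ) = (g ⟨(ψ x : ℂˣ), mem_valueField ψ x⟩ : ℂ)) →
      Λ ψ' = (g ⟨Λ ψ, h⟩ : ℂ)

lemma equivariant_of_rational (Λ : (G →* ℂˣ) → ℂ) (h : ∀ σ, ∃ q : ℚ, coeff Λ σ = q) (ψ : G →* ℂˣ) :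
    Equivariant Λ ψ := by
  choose q hq using h
  have h1 : ∀ ψ : G →* ℂˣ, Λ ψ = ∑ σ, (q σ : ℂ) * ((ψ σ : ℂˣ) : ℂ) := by
    intro ψ
    rw [inversion Λ ψ]
    simp only [hq]
  have h2 : Λ ψ = ((∑ σ, algebraMap ℚ (valueField ψ) (q σ) *
      (⟨(ψ σ : ℂˣ), mem_valueField ψ σ⟩ : valueField ψ) : valueField ψ) : ℂ) := by
    rw [h1 ψ]
    simp
  refine ⟨h2 ▸ (∑ σ, algebraMap ℚ (valueField ψ) (q σ) *
      (⟨(ψ σ : ℂˣ), mem_valueField ψ σ⟩ : valueField ψ) : valueField ψ).2, fun g ψ' hψ' => ?_⟩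
  have h3 : (⟨Λ ψ, h2 ▸ (∑ σ, algebraMap ℚ (valueField ψ) (q σ) *
      (⟨(ψ σ : ℂˣ), mem_valueField ψ σ⟩ : valueField ψ) : valueField ψ).2⟩ : valueField ψ) =
      ∑ σ, algebraMap ℚ (valueField ψ) (q σ) *
      (⟨(ψ σ : ℂˣ), mem_valueField ψ σ⟩ : valueField ψ) := Subtype.ext h2
  rw [h3, map_sum, h1 ψ']
  simp only [map_mul, AlgEquiv.commutes]
  simp [hψ']

/-- the field generated by the roots of unity of order dividing `|G|` -/
noncomputable def bigField (G : Type) [CommGroup G] [Fintype G] : IntermediateField ℚ ℂ :=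
  adjoin ℚ ((X ^ (Fintype.card G) - 1 : ℚ[X]).rootSet ℂ)

lemma pow_eq_one_of (ψ : G →* ℂˣ) (x : G) : ((ψ x : ℂˣ) : ℂ) ^ (Fintype.card G) = 1 := by
  rw [← Units.val_pow_eq_pow_val, ← map_pow, pow_card_eq_one, map_one, Units.val_one]

lemma poly_ne : (X ^ (Fintype.card G) - 1 : ℚ[X]) ≠ 0 := by
  intro h
  have := congrArg Polynomial.natDegree h
  rw [← C_1, natDegree_X_pow_sub_C] at this
  simp at this

lemma mem_bigField (ψ : G →* ℂˣ) (x : G) : ((ψ x : ℂˣ) : ℂ) ∈ bigField G := by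
  refine subset_adjoin _ _ ?_
  rw [mem_rootSet]
  refine ⟨poly_ne, ?_⟩
  simp [pow_eq_one_of]

lemma valueField_le (ψ : G →* ℂˣ) : valueField ψ ≤ bigField G := by
  refine adjoin_le_iff.2 ?_
  rintro _ ⟨x, rfl⟩
  exact mem_bigField ψ x

instance finite_big : FiniteDimensional ℚ (bigField G) := by
  have : IsSplittingField ℚ (bigField G) (X ^ (Fintype.card G) - 1 : ℚ[X]) :=
    adjoin_rootSet_isSplittingField (IsAlgClosed.splits _)
  exact IsSplittingField.finiteDimensional (bigField G) (X ^ (Fintype.card G) - 1 : ℚ[X])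

instance galois_big : IsGalois ℚ (bigField G) := by
  have : IsSplittingField ℚ (bigField G) (X ^ (Fintype.card G) - 1 : ℚ[X]) :=
    adjoin_rootSet_isSplittingField (IsAlgClosed.splits _)
  have : Normal ℚ (bigField G) := Normal.of_isSplittingField (X ^ (Fintype.card G) - 1 : ℚ[X])
  exact ⟨⟩

/-- `s ∘ ψ` for an automorphism `s` of the big field -/
noncomputable def act (s : bigField G ≃ₐ[ℚ] bigField G) (ψ : G →* ℂˣ) : G →* ℂˣ where
  toFun x := Units.mk0 ((s ⟨(ψ x : ℂˣ), mem_bigField ψ x⟩ : bigField G) : ℂ) (by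
    intro h
    have h1 : s ⟨(ψ x : ℂˣ), mem_bigField ψ x⟩ = 0 := Subtype.ext h
    have h2 : (⟨((ψ x : ℂˣ) : ℂ), mem_bigField ψ x⟩ : bigField G) = 0 := by
      simpa using h1
    exact (ψ x).ne_zero (congrArg Subtype.val h2))
  map_one' := by
    ext
    have h2 : (⟨((ψ 1 : ℂˣ) : ℂ), mem_bigField ψ 1⟩ : bigField G) = 1 := Subtype.ext (by simp)
    rw [Units.val_mk0, h2]
    simp
  map_mul' x y := by
    ext
    have h2 : (⟨((ψ (x * y) : ℂˣ) : ℂ), mem_bigField ψ (x * y)⟩ : bigField G) =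
        ⟨((ψ x : ℂˣ) : ℂ), mem_bigField ψ x⟩ * ⟨((ψ y : ℂˣ) : ℂ), mem_bigField ψ y⟩ :=
      Subtype.ext (by simp)
    rw [Units.val_mul, Units.val_mk0, Units.val_mk0, Units.val_mk0, h2, map_mul]
    rfl

lemma act_apply (s : bigField G ≃ₐ[ℚ] bigField G) (ψ : G →* ℂˣ) (x : G) :
    ((act s ψ x : ℂˣ) : ℂ) = (s ⟨(ψ x : ℂˣ), mem_bigField ψ x⟩ : bigField G) := rfl

lemma act_injective (s : bigField G ≃ₐ[ℚ] bigField G) : Function.Injective (act s) := by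
  intro ψ φ h
  ext x
  have h1 := act_apply s ψ x
  rw [h, act_apply] at h1
  have h2 := s.injective (Subtype.ext h1)
  exact (congrArg Subtype.val h2).symm

lemma act_bijective (s : bigField G ≃ₐ[ℚ] bigField G) : Function.Bijective (act s) :=
  (Finite.injective_iff_bijective).1 (act_injective s)

/-- an automorphism maps a value of `ψ` to a power of it -/
lemma act_pow (s : bigField G ≃ₐ[ℚ] bigField G) (ψ : G →* ℂˣ) (x : G) :
    ∃ i : ℕ, ((s ⟨(ψ x : ℂˣ), mem_bigField ψ x⟩ : bigField G) : ℂ) = ((ψ (x ^ i) : ℂˣ) : ℂ) := by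
  set z : bigField G := ⟨(ψ x : ℂˣ), mem_bigField ψ x⟩ with hz
  have hzn : z ^ (Fintype.card G) = 1 := Subtype.ext (by simpa [hz] using pow_eq_one_of ψ x)
  have ho : 0 < orderOf z := orderOf_pos_iff.2 (isOfFinOrder_iff_pow_eq_one.2
    ⟨Fintype.card G, Fintype.card_pos, hzn⟩)
  have h1 : (s z) ^ (orderOf z) = 1 := by
    rw [← map_pow, pow_orderOf_eq_one, map_one]
  have : NeZero (orderOf z) := ⟨ho.ne'⟩
  obtain ⟨i, _, hi⟩ := (IsPrimitiveRoot.orderOf z).eq_pow_of_pow_eq_one h1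
  refine ⟨i, ?_⟩
  rw [← hi, map_pow]
  simp [hz]

lemma map_mem (s : bigField G ≃ₐ[ℚ] bigField G) (ψ : G →* ℂˣ) (y : ℂ) (hy : y ∈ valueField ψ) :
    ((s ⟨y, valueField_le ψ hy⟩ : bigField G) : ℂ) ∈ valueField ψ := by
  have key : valueField ψ ≤ ((valueField ψ).comap ((bigField G).val)).map
      ((bigField G).val.comp (s.symm : bigField G →ₐ[ℚ] bigField G)) := by
    refine adjoin_le_iff.2 ?_
    rintro _ ⟨x, rfl⟩
    obtain ⟨i, hi⟩ := act_pow s ψ x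
    refine ⟨s ⟨(ψ x : ℂˣ), mem_bigField ψ x⟩, ?_, ?_⟩
    · change ((s ⟨(ψ x : ℂˣ), mem_bigField ψ x⟩ : bigField G) : ℂ) ∈ valueField ψ
      rw [hi]
      exact mem_valueField ψ _
    · change ((s.symm (s ⟨(ψ x : ℂˣ), mem_bigField ψ x⟩) : bigField G) : ℂ) = _
      rw [AlgEquiv.symm_apply_apply]
  obtain ⟨w, hw, hw2⟩ := key hy
  have h1 : s.symm w = ⟨y, valueField_le ψ hy⟩ := Subtype.ext hw2
  rw [← h1, AlgEquiv.apply_symm_apply]
  exact hw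

/-- the restriction of `s` to `ℚ(ψ)` -/
lemma exists_restrict (s : bigField G ≃ₐ[ℚ] bigField G) (ψ : G →* ℂˣ) :
    ∃ g : valueField ψ ≃ₐ[ℚ] valueField ψ, ∀ y : valueField ψ,
      ((g y : valueField ψ) : ℂ) = (s ⟨y, valueField_le ψ y.2⟩ : bigField G) := by
  let f : valueField ψ →ₐ[ℚ] valueField ψ :=
    AlgHom.codRestrict (((bigField G).val.comp (s : bigField G →ₐ[ℚ] bigField G)).comp
      (IntermediateField.inclusion (valueField_le ψ))) (valueField ψ).toSubalgebra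
      (fun y => map_mem s ψ y y.2)
  have halg : Algebra.IsAlgebraic ℚ (valueField ψ) := by
    refine isAlgebraic_adjoin ?_
    rintro _ ⟨x, rfl⟩
    exact IsIntegral.of_pow (n := Fintype.card G) Fintype.card_pos (by
      rw [pow_eq_one_of]
      exact isIntegral_one)
  refine ⟨AlgEquiv.ofBijective f (Algebra.IsAlgebraic.algHom_bijective f), fun y => rfl⟩

theorem rational_iff (Λ : (G →* ℂˣ) → ℂ) :
    (∀ ψ, Equivariant Λ ψ) ↔ ∀ σ, ∃ q : ℚ, coeff Λ σ = q := by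
  refine ⟨fun h σ => ?_, fun h ψ => equivariant_of_rational Λ h ψ⟩
  have hmem : ∀ ψ, Λ ψ ∈ bigField G := fun ψ => valueField_le ψ (h ψ).1
  have hΛ : ∀ (s : bigField G ≃ₐ[ℚ] bigField G) ψ, Λ (act s ψ) = (s ⟨Λ ψ, hmem ψ⟩ : bigField G) := by
    intro s ψ
    obtain ⟨g, hg⟩ := exists_restrict s ψ
    obtain ⟨h1, h2⟩ := h ψ
    rw [h2 g (act s ψ) (fun x => by rw [act_apply, hg]), hg]
  let c : bigField G := (1 / (Fintype.card G : bigField G)) * ∑ ψ : G →* ℂˣ,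
    (⟨(ψ σ : ℂˣ), mem_bigField ψ σ⟩ : bigField G)⁻¹ * ⟨Λ ψ, hmem ψ⟩
  have hc : ((c : bigField G) : ℂ) = coeff Λ σ := by
    simp [c, coeff]
  have hfix : ∀ s : bigField G ≃ₐ[ℚ] bigField G, s c = c := by
    intro s
    apply Subtype.ext
    have e1 : ((s c : bigField G) : ℂ) = (1 / (Fintype.card G : ℂ)) * ∑ ψ : G →* ℂˣ,
        ((act s ψ σ : ℂˣ) : ℂ)⁻¹ * Λ (act s ψ) := by
      simp only [hΛ, act_apply]
      simp [c]
    rw [e1, hc, coeff, (act_bijective s).sum_comp (fun ψ => ((ψ σ : ℂˣ) : ℂ)⁻¹ * Λ ψ)]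
  have hbot : c ∈ (⊥ : IntermediateField ℚ (bigField G)) := by
    rw [IsGalois.mem_bot_iff_fixed]
    exact hfix
  obtain ⟨q, hq⟩ := IntermediateField.mem_bot.1 hbot
  refine ⟨q, ?_⟩
  rw [← hc, ← hq]
  simp

end Pool.Agent.Q233.KT
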