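import Pool.Agent.Q233.KT.Dual

/-!
# Dirichlet coefficients of Euler products and hyper-Kloosterman sums
-/

set_option autoImplicit false

namespace Pool.Agent.Q233.KT

open Finset Polynomial LSeries

/-- the completely multiplicative function with value `α ℓ` at the prime `ℓ` -/
noncomputable def cm (α : ℕ → ℂ) : ℕ →*₀ ℂ where
  toFun n := if n = 0 then 0 else n.factorization.prod fun ℓ k => α ℓ ^ k
  map_zero' := by simp
  map_one' := by simp
  map_mul' m n := by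
    by_cases hm : m = 0
    · simp [hm]
    by_cases hn : n = 0
    · simp [hn]
    rw [if_neg hm, if_neg hn, if_neg (mul_ne_zero hm hn), Nat.factorization_mul hm hn,
      Finsupp.prod_add_index' (by simp) (by intro a b c; rw [pow_add])]

lemma cm_prime (α : ℕ → ℂ) {ℓ : ℕ} (h : ℓ.Prime) : cm α ℓ = α ℓ := by
  change (if ℓ = 0 then 0 else ℓ.factorization.prod fun ℓ k => α ℓ ^ k) = α ℓ
  rw [if_neg h.ne_zero, h.factorization]
  simp

lemma cm_norm (α : ℕ → ℂ) (θ : ℝ) (h : ∀ ℓ : ℕ, ℓ.Prime → ‖α ℓ‖ ≤ (ℓ : ℝ) ^ θ) (n : ℕ) (hn : n ≠ 0) :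
    ‖cm α n‖ ≤ (n : ℝ) ^ θ := by
  induction n using Nat.recOnMul with
  | zero => exact absurd rfl hn
  | one => simp
  | prime p hp => rw [cm_prime α hp]; exact h p hp
  | mul a b iha ihb =>
    have ha : a ≠ 0 := fun h => hn (by simp [h])
    have hb : b ≠ 0 := fun h => hn (by simp [h])
    rw [map_mul, norm_mul, Nat.cast_mul, Real.mul_rpow (Nat.cast_nonneg _) (Nat.cast_nonneg _)]
    exact mul_le_mul (iha ha) (ihb hb) (norm_nonneg _) (by positivity)

/-- Dirichlet convolution of a list of arithmetic functions -/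
noncomputable def convs : List (ℕ → ℂ) → (ℕ → ℂ)
  | [] => LSeries.delta
  | (g :: l) => LSeries.convolution g (convs l)

/-- the Dirichlet coefficients of `∏_ℓ ∏_j (1 - α ℓ j ℓ^{-s})^{-1}` -/
noncomputable def dcoeff {m : ℕ} (α : ℕ → Fin m → ℂ) : ℕ → ℂ :=
  convs (List.ofFn fun j => (fun n => cm (fun ℓ => α ℓ j) n))

lemma twist_convs {f : ℕ} (χ : DirichletCharacter ℂ f) (s : ℂ) (l : List (ℕ → ℂ)) (A : (ℕ → ℂ) → ℂ)
    (h : ∀ g ∈ l, LSeriesHasSum (fun n => χ (n : ZMod f) * g n) s (A g)) :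
    LSeriesHasSum (fun n => χ (n : ZMod f) * convs l n) s ((l.map A).prod) := by
  induction l with
  | nil =>
    have h1 : (fun n : ℕ => χ (n : ZMod f) * convs [] n) = LSeries.delta := by
      ext n
      unfold convs LSeries.delta
      by_cases hn : n = 1
      · subst hn
        simp
      · simp [hn]
    rw [h1]
    have h3 : HasSum (LSeries.term LSeries.delta s) 1 := by
      have h4 := hasSum_single (f := LSeries.term LSeries.delta s) 1 (fun n hn => by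
        rw [LSeries.term_delta, if_neg hn])
      rw [LSeries.term_delta, if_pos rfl] at h4
      exact h4
    rw [List.map_nil, List.prod_nil]
    exact h3
  | cons g l ih =>
    have h1 := h g (by simp)
    have h2 := ih (fun g hg => h g (by simp [hg]))
    have h3 := h1.convolution h2
    have h4 := DirichletCharacter.mul_convolution_distrib χ g (convs l)
    have h5 : (fun n : ℕ => χ (n : ZMod f) * convs (g :: l) n) =
        LSeries.convolution (fun n => χ (n : ZMod f) * g n) (fun n => χ (n : ZMod f) * convs l n) :=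
      h4.symm
    rw [h5]
    simpa using h3

/-- completely multiplicative twisted function `χ(n) g(n) n^{-s}` -/
noncomputable def ctw {f : ℕ} (χ : DirichletCharacter ℂ f) (α : ℕ → ℂ) (s : ℂ) : ℕ →*₀ ℂ where
  toFun n := χ (n : ZMod f) * cm α n * (n : ℂ) ^ (-s)
  map_zero' := by simp
  map_one' := by simp
  map_mul' m n := by
    rw [map_mul, Nat.cast_mul, map_mul, Nat.cast_mul, Complex.natCast_mul_natCast_cpow]
    ring

lemma ctw_summable {f : ℕ} (χ : DirichletCharacter ℂ f) (α : ℕ → ℂ) (θ : ℝ)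
    (h : ∀ ℓ : ℕ, ℓ.Prime → ‖α ℓ‖ ≤ (ℓ : ℝ) ^ θ) (s : ℂ) (hs : θ + 1 < s.re) :
    Summable fun n => ‖ctw χ α s n‖ := by
  have h1 : Summable fun n : ℕ => (n : ℝ) ^ (θ - s.re) := Real.summable_nat_rpow.2 (by linarith)
  refine Summable.of_nonneg_of_le (fun n => norm_nonneg _) (fun n => ?_) h1
  rcases eq_or_ne n 0 with rfl | hn
  · rw [map_zero, norm_zero]
    positivity
  · have hn0 : (0 : ℝ) < n := by exact_mod_cast Nat.pos_of_ne_zero hn
    change ‖χ (n : ZMod f) * cm α n * (n : ℂ) ^ (-s)‖ ≤ _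
    rw [norm_mul, norm_mul, Complex.norm_natCast_cpow_of_pos (Nat.pos_of_ne_zero hn), Complex.neg_re]
    calc ‖χ (n : ZMod f)‖ * ‖cm α n‖ * (n : ℝ) ^ (-s.re) ≤ 1 * (n : ℝ) ^ θ * (n : ℝ) ^ (-s.re) := by
          gcongr
          · exact χ.norm_le_one _
          · exact cm_norm α θ h n hn
      _ = (n : ℝ) ^ (θ - s.re) := by rw [one_mul, ← Real.rpow_add hn0, sub_eq_add_neg]

lemma ctw_lseries {f : ℕ} (χ : DirichletCharacter ℂ f) (α : ℕ → ℂ) (θ : ℝ)
    (h : ∀ ℓ : ℕ, ℓ.Prime → ‖α ℓ‖ ≤ (ℓ : ℝ) ^ θ) (s : ℂ) (hs : θ + 1 < s.re) :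
    LSeriesHasSum (fun n => χ (n : ZMod f) * cm α n) s (∑' n, ctw χ α s n) := by
  have h1 := (ctw_summable χ α θ h s hs).of_norm.hasSum
  refine h1.congr_fun fun n => ?_
  rcases eq_or_ne n 0 with rfl | hn
  · simp
  · rw [LSeries.term_of_ne_zero hn]
    change _ = χ (n : ZMod f) * cm α n * (n : ℂ) ^ (-s)
    rw [Complex.cpow_neg]
    rfl

/-- Dirichlet series of the twisted Euler product -/
theorem euler_twist {f m : ℕ} (χ : DirichletCharacter ℂ f) (α : ℕ → Fin m → ℂ) (θ : ℝ)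
    (h : ∀ ℓ : ℕ, ℓ.Prime → ∀ j, ‖α ℓ j‖ ≤ (ℓ : ℝ) ^ θ) (s : ℂ) (hs : θ + 1 < s.re) (v : ℂ)
    (hv : HasProd (fun ℓ : Nat.Primes => (∏ j, (1 - α ℓ j * (χ ((ℓ : ℕ) : ZMod f) * (ℓ : ℂ) ^ (-s))))⁻¹) v) :
    LSeriesHasSum (fun n => χ (n : ZMod f) * dcoeff α n) s v := by
  have hj : ∀ j, HasProd (fun ℓ : Nat.Primes => (1 - ctw χ (fun ℓ => α ℓ j) s ℓ)⁻¹)
      (∑' n, ctw χ (fun ℓ => α ℓ j) s n) := fun j =>
    EulerProduct.eulerProduct_completely_multiplicative_hasProd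
      (ctw_summable χ _ θ (fun ℓ hℓ => h ℓ hℓ j) s hs)
  have h1 : HasProd (fun ℓ : Nat.Primes => (∏ j, (1 - α ℓ j * (χ ((ℓ : ℕ) : ZMod f) * (ℓ : ℂ) ^ (-s))))⁻¹)
      (∏ j, ∑' n, ctw χ (fun ℓ => α ℓ j) s n) := by
    refine (hasProd_prod (s := Finset.univ) fun j _ => hj j).congr_fun fun ℓ => ?_
    rw [Finset.prod_inv_distrib]
    congr 1
    refine Finset.prod_congr rfl fun j _ => ?_
    change _ = 1 - χ (((ℓ : ℕ)) : ZMod f) * cm (fun ℓ => α ℓ j) ℓ * ((ℓ : ℕ) : ℂ) ^ (-s)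
    rw [cm_prime _ ℓ.2]
    ring
  have h2 := hv.unique h1
  rw [h2]
  unfold dcoeff
  have h3 : ∀ g ∈ (List.ofFn fun j => (fun n => cm (fun ℓ => α ℓ j) n)),
      LSeriesHasSum (fun n => χ (n : ZMod f) * g n) s (∑' n : ℕ, χ (n : ZMod f) * g n * (n : ℂ) ^ (-s)) := by
    intro g hg
    rw [List.mem_ofFn] at hg
    obtain ⟨j, rfl⟩ := hg
    exact ctw_lseries χ (fun ℓ => α ℓ j) θ (fun ℓ hℓ => h ℓ hℓ j) s hs
  have h4 := twist_convs χ s _ _ h3
  rw [List.map_ofFn, List.prod_ofFn] at h4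
  exact h4

section Kloosterman

variable {f : ℕ} [NeZero f] {G : Type} [CommGroup G] [Fintype G]

/-- the Dirichlet character modulo `f` attached to the character `ψ` of `G` -/
noncomputable def dchar (π : (ZMod f)ˣ →* G) (ψ : G →* ℂˣ) : DirichletCharacter ℂ f :=
  MulChar.ofUnitHom (ψ.comp π)

lemma dchar_unit (π : (ZMod f)ˣ →* G) (ψ : G →* ℂˣ) (x : (ZMod f)ˣ) :
    dchar π ψ (x : ZMod f) = ((ψ (π x) : ℂˣ) : ℂ) := by
  unfold dchar
  rw [MulChar.ofUnitHom_coe]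
  rfl

/-- the Gauss sum `∑_{a mod f} ψ(a) e(a/f)` -/
noncomputable def tau (π : (ZMod f)ˣ →* G) (ψ : G →* ℂˣ) : ℂ :=
  gaussSum (dchar π ψ) (ZMod.stdAddChar (N := f))

lemma tau_eq (π : (ZMod f)ˣ →* G) (ψ : G →* ℂˣ) :
    tau π ψ = ∑ x : (ZMod f)ˣ, ((ψ (π x) : ℂˣ) : ℂ) * ZMod.stdAddChar (x : ZMod f) := by
  classical
  unfold tau gaussSum
  have h1 : ∑ x : (ZMod f)ˣ, ((ψ (π x) : ℂˣ) : ℂ) * ZMod.stdAddChar (x : ZMod f) =
      ∑ x : (ZMod f)ˣ, dchar π ψ (x : ZMod f) * ZMod.stdAddChar (x : ZMod f) :=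
    Finset.sum_congr rfl fun x _ => by rw [dchar_unit]
  rw [h1]
  symm
  refine Finset.sum_of_injOn (fun x : (ZMod f)ˣ => (x : ZMod f)) ?_ ?_ ?_ ?_
  · intro x _ y _ h
    exact Units.ext h
  · intro x _
    simp
  · intro a _ ha
    have hnu : ¬ IsUnit a := by
      rintro ⟨u, rfl⟩
      exact ha ⟨u, by simp, rfl⟩
    rw [MulChar.map_nonunit _ hnu, zero_mul]
  · intro x _
    rfl

open Classical in
/-- hyper-Kloosterman sum: the sum of `e((x_1 + ... + x_d)/f)` over the tuples of units with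
`n ≡ v`, `π(v) = σ π(x_1 ⋯ x_d)` -/
noncomputable def Kl (π : (ZMod f)ˣ →* G) (d : ℕ) (σ : G) (n : ℕ) : ℂ :=
  ∑ x : Fin d → (ZMod f)ˣ, if ∃ v : (ZMod f)ˣ, (v : ZMod f) = n ∧ π v = σ * π (∏ i, x i) then
    ZMod.stdAddChar (∑ i, ((x i : (ZMod f)ˣ) : ZMod f)) else 0

lemma addChar_sum {A ι : Type} [AddCommMonoid A] (e : AddChar A ℂ) (s : Finset ι) (g : ι → A) :
    e (∑ i ∈ s, g i) = ∏ i ∈ s, e (g i) := by
  classical
  induction s using Finset.induction_on with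
  | empty => simp
  | insert a s ha ih => rw [Finset.sum_insert ha, Finset.prod_insert ha, AddChar.map_add_eq_mul, ih]

lemma tau_pow (π : (ZMod f)ˣ →* G) (ψ : G →* ℂˣ) (d : ℕ) :
    tau π ψ ^ d = ∑ x : Fin d → (ZMod f)ˣ, ((ψ (π (∏ i, x i)) : ℂˣ) : ℂ) *
      ZMod.stdAddChar (∑ i, ((x i : (ZMod f)ˣ) : ZMod f)) := by
  classical
  rw [tau_eq, ← Fin.prod_const, Finset.prod_univ_sum, Fintype.piFinset_univ]
  refine Finset.sum_congr rfl fun x _ => ?_
  rw [Finset.prod_mul_distrib, map_prod, map_prod, Units.coe_prod, addChar_sum]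

/-- Fourier coefficients of the twisted terms -/
lemma coeff_tau (π : (ZMod f)ˣ →* G) (d : ℕ) (σ : G) (n : ℕ) :
    coeff (fun ψ => tau π ψ⁻¹ ^ d * dchar π ψ (n : ZMod f)) σ = Kl π d σ n := by
  classical
  by_cases hn : IsUnit (n : ZMod f)
  · obtain ⟨v, hv⟩ := hn
    unfold coeff Kl
    have h1 : ∀ ψ : G →* ℂˣ, ((ψ σ : ℂˣ) : ℂ)⁻¹ * (tau π ψ⁻¹ ^ d * dchar π ψ (n : ZMod f)) =
        ∑ x : Fin d → (ZMod f)ˣ, ((ψ (σ⁻¹ * (π (∏ i, x i))⁻¹ * π v) : ℂˣ) : ℂ) *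
          ZMod.stdAddChar (∑ i, ((x i : (ZMod f)ˣ) : ZMod f)) := by
      intro ψ
      rw [← hv, dchar_unit, tau_pow, Finset.sum_mul, Finset.mul_sum]
      refine Finset.sum_congr rfl fun x _ => ?_
      simp only [map_mul, map_inv, MonoidHom.inv_apply, Units.val_mul, Units.val_inv_eq_inv_val]
      ring
    simp only [h1]
    rw [Finset.sum_comm, Finset.mul_sum]
    refine Finset.sum_congr rfl fun x _ => ?_
    rw [← Finset.sum_mul, sum_dual]
    have h2 : σ⁻¹ * (π (∏ i, x i))⁻¹ * π v = 1 ↔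
        ∃ v : (ZMod f)ˣ, (v : ZMod f) = n ∧ π v = σ * π (∏ i, x i) := by
      constructor
      · intro h
        refine ⟨v, hv, ?_⟩
        rw [← mul_inv_rev, inv_mul_eq_one] at h
        rw [← h, mul_comm]
      · rintro ⟨w, hw, hw2⟩
        have : w = v := Units.ext (hw.trans hv.symm)
        subst this
        rw [hw2, mul_comm σ⁻¹, mul_assoc, inv_mul_cancel_left, inv_mul_cancel]
    by_cases h3 : σ⁻¹ * (π (∏ i, x i))⁻¹ * π v = 1
    · rw [if_pos h3, if_pos (h2.1 h3)]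
      have := card_ne (G := G)
      field_simp
    · rw [if_neg h3, if_neg (fun h => h3 (h2.2 h))]
      simp
  · unfold coeff Kl
    have h1 : ∀ ψ : G →* ℂˣ, dchar π ψ (n : ZMod f) = 0 := fun ψ => MulChar.map_nonunit _ hn
    simp only [h1, mul_zero, Finset.sum_const_zero]
    symm
    refine Finset.sum_eq_zero fun x _ => ?_
    rw [if_neg]
    rintro ⟨v, hv, _⟩
    exact hn ⟨v, hv⟩

end Kloosterman

end Pool.Agent.Q233.KT
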