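import Pool.Agent.Q233.KT.Euler

/-!
# Rationality of all twisted values in terms of Kloosterman twisted Dirichlet series
-/

set_option autoImplicit false

namespace Pool.Agent.Q233.KT

open Finset Polynomial LSeries

variable {f : ℕ} [NeZero f] {G : Type} [CommGroup G] [Fintype G]

/-- `D σ` is the analytic continuation to `U` of `∑ a(n) Kl_d(σ, n) n^{-z}`, `Re z > θ + 1` -/
def IsKl {m : ℕ} (π : (ZMod f)ˣ →* G) (d : ℕ) (α : ℕ → Fin m → ℂ) (θ : ℝ) (U : Set ℂ)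
    (D : G → ℂ → ℂ) : Prop :=
  ∀ σ, AnalyticOnNhd ℂ (D σ) U ∧ ∀ z : ℂ, θ + 1 < z.re →
    LSeriesHasSum (fun n => Kl π d σ n * dcoeff α n) z (D σ z)

/-- the combination of the twisted `L`-functions -/
noncomputable def D0 (π : (ZMod f)ˣ →* G) (d : ℕ) (L : (G →* ℂˣ) → ℂ → ℂ) (σ : G) (z : ℂ) : ℂ :=
  coeff (fun ψ => tau π ψ⁻¹ ^ d * L ψ z) σ

theorem isKl_D0 {m : ℕ} (π : (ZMod f)ˣ →* G) (d : ℕ) (α : ℕ → Fin m → ℂ) (θ : ℝ)
    (h : ∀ ℓ : ℕ, ℓ.Prime → ∀ j, ‖α ℓ j‖ ≤ (ℓ : ℝ) ^ θ) (U : Set ℂ)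
    (L : (G →* ℂˣ) → ℂ → ℂ) (hLa : ∀ ψ, AnalyticOnNhd ℂ (L ψ) U)
    (hL : ∀ ψ, ∀ z : ℂ, θ + 1 < z.re → HasProd (fun ℓ : Nat.Primes =>
      (∏ j, (1 - α ℓ j * (dchar π ψ ((ℓ : ℕ) : ZMod f) * (ℓ : ℂ) ^ (-z))))⁻¹) (L ψ z)) :
    IsKl π d α θ U (D0 π d L) := by
  intro σ
  constructor
  · unfold D0 coeff
    refine AnalyticOnNhd.mul analyticOnNhd_const ?_
    refine Finset.analyticOnNhd_fun_sum _ fun ψ _ => ?_
    exact analyticOnNhd_const.mul (analyticOnNhd_const.mul (hLa ψ))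
  · intro z hz
    have h1 : ∀ ψ, LSeriesHasSum (fun n => dchar π ψ (n : ZMod f) * dcoeff α n) z (L ψ z) :=
      fun ψ => euler_twist _ α θ h z hz _ (hL ψ z hz)
    have h2 : HasSum (fun n : ℕ => (1 / (Fintype.card G : ℂ)) * ∑ ψ : G →* ℂˣ, ((ψ σ : ℂˣ) : ℂ)⁻¹ *
        (tau π ψ⁻¹ ^ d * LSeries.term (fun n => dchar π ψ (n : ZMod f) * dcoeff α n) z n))
        (D0 π d L σ z) := by
      unfold D0 coeff
      refine HasSum.mul_left _ (hasSum_sum fun ψ _ => ?_)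
      exact HasSum.mul_left _ (HasSum.mul_left _ (h1 ψ))
    refine HasSum.congr_fun h2 fun n => ?_
    rcases eq_or_ne n 0 with rfl | hn
    · simp
    · rw [LSeries.term_of_ne_zero hn, ← coeff_tau]
      unfold coeff
      rw [mul_assoc, Finset.sum_mul, mul_div_assoc, Finset.sum_div]
      congr 1
      refine Finset.sum_congr rfl fun ψ _ => ?_
      rw [LSeries.term_of_ne_zero hn]
      ring

theorem isKl_unique {m : ℕ} {π : (ZMod f)ˣ →* G} {d : ℕ} {α : ℕ → Fin m → ℂ} {θ : ℝ} {U : Set ℂ}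
    (hU : IsPreconnected U) (hUo : IsOpen U) (hUh : {z : ℂ | θ + 1 < z.re} ⊆ U)
    {D D' : G → ℂ → ℂ} (h : IsKl π d α θ U D) (h' : IsKl π d α θ U D') (σ : G) :
    Set.EqOn (D σ) (D' σ) U := by
  have hz : ((θ + 2 : ℝ) : ℂ) ∈ {z : ℂ | θ + 1 < z.re} := by
    simp only [Set.mem_setOf_eq, Complex.ofReal_re]
    linarith
  have ho : IsOpen {z : ℂ | θ + 1 < z.re} := isOpen_lt continuous_const Complex.continuous_re
  refine AnalyticOnNhd.eqOn_of_preconnected_of_eventuallyEq (h σ).1 (h' σ).1 hU (hUh hz) ?_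
  filter_upwards [ho.mem_nhds hz] with z hz
  exact ((h σ).2 z hz).unique ((h' σ).2 z hz)

end Pool.Agent.Q233.KT
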